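import Pool.Agent.CBG.StmtsA

/-!
# Squad CBG (MP_148648_gt), row SOC: necessary conditions for a minimum
-/

set_option autoImplicit false
set_option maxSynthPendingDepth 3

open scoped ContDiff Topology
open Set Filter

namespace Pool.Agent.CBG.H88

open Pool.Agent.CBG

theorem local_min_snd {f f1 : ℝ → ℝ} {f2 : ℝ} (h1 : ∀ᶠ ε in 𝓝 (0 : ℝ), HasDerivAt f (f1 ε) ε)
    (h2 : HasDerivAt f1 f2 0) (hmin : IsLocalMin f 0) : f1 0 = 0 ∧ 0 ≤ f2 := by
  have h0 : HasDerivAt f (f1 0) 0 := h1.self_of_nhds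
  have e0 : f1 0 = 0 := hmin.hasDerivAt_eq_zero h0
  refine ⟨e0, ?_⟩
  by_contra hneg
  have hneg : f2 < 0 := not_le.1 hneg
  have hd : deriv f =ᶠ[𝓝 0] f1 := h1.mono (fun ε h => h.deriv)
  have hdd : deriv (deriv f) 0 = f2 := by
    rw [hd.deriv_eq]
    exact h2.deriv
  have hmax : IsLocalMax f 0 := by
    apply isLocalMax_of_deriv_deriv_neg
    · rw [hdd]; exact hneg
    · rw [h0.deriv]; exact e0
    · exact h0.continuousAt
  have hc : f =ᶠ[𝓝 0] fun _ => f 0 := by
    filter_upwards [hmin, hmax] with ε ha hb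
    exact le_antisymm hb ha
  have hc1 : deriv f =ᶠ[𝓝 0] fun _ => 0 := by
    have h3 := hc.eventuallyEq_nhds
    filter_upwards [h3] with ε h
    rw [h.deriv_eq]
    simp
  have hc2 : deriv (deriv f) 0 = 0 := by
    rw [hc1.deriv_eq]
    simp
  rw [hdd] at hc2
  linarith

theorem soc : SocStmt := by
  intro n G hG hsym V Z W τ hmin
  have hG1 : ∀ᶠ y in 𝓝 (0 : Ed n), HasFDerivAt G (fderiv ℝ G y) y := by
    have h := hG.eventually (by simp)
    filter_upwards [h] with y hy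
    exact (hy.differentiableAt (by norm_num)).hasFDerivAt
  have hG2 : HasFDerivAt (fderiv ℝ G) (fderiv ℝ (fderiv ℝ G) 0) 0 := by
    have h : ContDiffAt ℝ 1 (fderiv ℝ G) 0 := hG.fderiv_right (by norm_num)
    exact (h.differentiableAt (by norm_num)).hasFDerivAt
  -- the line
  have hl : ∀ ε : ℝ, HasDerivAt (fun ε : ℝ => ε • V) V ε := by
    intro ε
    have h := (hasDerivAt_id ε).smul_const V
    rw [one_smul] at h
    exact h
  have hz : ∀ ε : ℝ, HasDerivAt (fun ε : ℝ => Z + ε • W) W ε := by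
    intro ε
    have h := ((hasDerivAt_id ε).smul_const W).const_add Z
    rw [one_smul] at h
    exact h
  have ht : Tendsto (fun ε : ℝ => ε • V) (𝓝 0) (𝓝 (0 : Ed n)) := by
    have h := (hl 0).continuousAt.tendsto
    simpa using h
  have hGl : ∀ᶠ ε in 𝓝 (0 : ℝ), HasDerivAt (fun ε : ℝ => G (ε • V)) (fderiv ℝ G (ε • V) V) ε := by
    filter_upwards [ht.eventually hG1] with ε h
    exact h.comp_hasDerivAt ε (hl ε)
  have hφ : ∀ᶠ ε in 𝓝 (0 : ℝ),
      HasDerivAt (fun ε : ℝ => G (ε • V) (Z + ε • W) (Z + ε • W) - 2 * ε * τ)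
        (fderiv ℝ G (ε • V) V (Z + ε • W) (Z + ε • W) + G (ε • V) W (Z + ε • W)
          + G (ε • V) (Z + ε • W) W - 2 * τ) ε := by
    filter_upwards [hGl] with ε h
    have h1 := ((h.clm_apply (hz ε)).clm_apply (hz ε)).sub
      (((hasDerivAt_id ε).const_mul 2).mul_const τ)
    refine h1.congr_deriv ?_
    simp
  have hψ : HasDerivAt (fun ε : ℝ => fderiv ℝ G (ε • V) V (Z + ε • W) (Z + ε • W)
      + G (ε • V) W (Z + ε • W) + G (ε • V) (Z + ε • W) W - 2 * τ)
      (fderiv ℝ (fderiv ℝ G) 0 V V Z Z + 2 * (fderiv ℝ G 0 V W Z + fderiv ℝ G 0 V Z W)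
        + 2 * G 0 W W) 0 := by
    have hF : HasDerivAt (fun ε : ℝ => fderiv ℝ G (ε • V)) (fderiv ℝ (fderiv ℝ G) 0 V) 0 := by
      have h2 : HasFDerivAt (fderiv ℝ G) (fderiv ℝ (fderiv ℝ G) 0) ((0 : ℝ) • V) := by
        rw [zero_smul]; exact hG2
      exact h2.comp_hasDerivAt 0 (hl 0)
    have hG0 : HasDerivAt (fun ε : ℝ => G (ε • V)) (fderiv ℝ G 0 V) 0 := by
      have h := hGl.self_of_nhds
      rw [zero_smul] at h
      exact h
    have h1 := ((hF.clm_apply (hasDerivAt_const (0 : ℝ) V)).clm_apply (hz 0)).clm_apply (hz 0)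
    have h2 := (hG0.clm_apply (hasDerivAt_const (0 : ℝ) W)).clm_apply (hz 0)
    have h3 := (hG0.clm_apply (hz 0)).clm_apply (hasDerivAt_const (0 : ℝ) W)
    have h4 := ((h1.add h2).add h3).sub_const (2 * τ)
    refine h4.congr_deriv ?_
    simp
    ring
  have hm : IsLocalMin (fun ε : ℝ => G (ε • V) (Z + ε • W) (Z + ε • W) - 2 * ε * τ) 0 := by
    filter_upwards [hmin] with ε h
    simpa using h
  obtain ⟨h1, h2⟩ := local_min_snd hφ hψ hm
  have s0 : G 0 W Z = G 0 Z W := hsym.self_of_nhds W Z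
  have s1 : fderiv ℝ G 0 V W Z = fderiv ℝ G 0 V Z W := by
    have hd : HasFDerivAt G (fderiv ℝ G 0) 0 := hG1.self_of_nhds
    have a1 := ((hd.clm_apply (hasFDerivAt_const W (0 : Ed n))).clm_apply
      (hasFDerivAt_const Z (0 : Ed n))).fderiv
    have a2 := ((hd.clm_apply (hasFDerivAt_const Z (0 : Ed n))).clm_apply
      (hasFDerivAt_const W (0 : Ed n))).fderiv
    have a3 : (fun y : Ed n => G y W Z) =ᶠ[𝓝 0] fun y => G y Z W :=
      hsym.mono (fun y h => h W Z)
    have a4 := a3.fderiv_eq (𝕜 := ℝ)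
    rw [a1, a2] at a4
    have a5 := congrArg (fun L : Ed n →L[ℝ] ℝ => L V) a4
    simpa using a5
  constructor
  · have h3 := h1
    simp only [zero_smul, add_zero] at h3
    rw [s0] at h3
    linarith
  · rw [s1] at h2
    linarith

end Pool.Agent.CBG.H88
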